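import Pool.Agent.H516.PCF.All

set_option autoImplicit false
set_option linter.all false

open Polynomial

namespace Pool.Agent.H407.PCF

theorem avg : Pool.Agent.H516.PCF.S_AVG := by
  intro F _ _ _ r hr u t hut
  haveI : NeZero r := ⟨hr.ne'⟩
  haveI : NeZero (r : F) := ⟨by exact_mod_cast hr.ne'⟩
  obtain ⟨ω, hω⟩ := HasEnoughRootsOfUnity.exists_primitiveRoot F r
  refine ⟨hω.card_nthRootsFinset, ?_⟩
  by_cases hu : u = 0
  · subst hu
    rw [zero_pow hr.ne', mul_zero, zero_div]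
    refine Finset.sum_eq_zero fun ζ _ => ?_
    rw [mul_zero, zero_div]
  have hur : u ^ r ≠ 0 := pow_ne_zero _ hu
  set x : F := t / u with hx
  have hxr : x ^ r ≠ 1 := by
    rw [hx, div_pow]
    intro h
    rw [div_eq_one_iff_eq hur] at h
    exact hut h.symm
  have hx1 : 1 - x ^ r ≠ 0 := sub_ne_zero.2 (Ne.symm hxr)
  -- the logarithmic derivative
  have hprod : (X ^ r - 1 : F[X]) = ∏ ζ ∈ nthRootsFinset r (1 : F), (X - C ζ) :=
    X_pow_sub_one_eq_prod hr hω
  have hroots : (X ^ r - 1 : F[X]).roots = (nthRootsFinset r (1 : F)).val := by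
    rw [hprod, roots_prod_X_sub_C]
  have hev : (X ^ r - 1 : F[X]).eval x ≠ 0 := by
    rw [eval_sub, eval_pow, eval_X, eval_one]
    exact sub_ne_zero.2 hxr
  have hlog := (IsAlgClosed.splits (X ^ r - 1 : F[X])).eval_derivative_div_eval_of_ne_zero hev
  rw [hroots] at hlog
  have hlog2 : ∑ ζ ∈ nthRootsFinset r (1 : F), 1 / (x - ζ) = r * x ^ (r - 1) / (x ^ r - 1) := by
    have h1 : (X ^ r - 1 : F[X]).eval x = x ^ r - 1 := by simp
    have h2 : (derivative (X ^ r - 1 : F[X])).eval x = r * x ^ (r - 1) := by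
      rw [derivative_sub, derivative_X_pow, derivative_one, sub_zero, eval_mul, eval_pow, eval_X,
        eval_C]
    rw [h1, h2] at hlog
    exact hlog.symm
  have hne : ∀ ζ ∈ nthRootsFinset r (1 : F), x - ζ ≠ 0 := by
    intro ζ hζ h
    apply hxr
    rw [sub_eq_zero.1 h]
    exact (mem_nthRootsFinset hr 1).1 hζ
  have hterm : ∀ ζ ∈ nthRootsFinset r (1 : F), ζ * u / (ζ * u - t) = 1 - x * (1 / (x - ζ)) := by
    intro ζ hζ
    have h1 := hne ζ hζ
    have ht : t = x * u := by rw [hx]; field_simp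
    have h2 : ζ * u - t = - ((x - ζ) * u) := by rw [ht]; ring
    rw [h2]
    field_simp
    ring
  rw [Finset.sum_congr rfl hterm, Finset.sum_sub_distrib, Finset.sum_const, ← Finset.mul_sum,
    hlog2, hω.card_nthRootsFinset, nsmul_eq_mul, mul_one]
  have ht : t = x * u := by rw [hx]; field_simp
  have hxx : x * (r * x ^ (r - 1) / (x ^ r - 1)) = r * x ^ r / (x ^ r - 1) := by
    have : x ^ r = x * x ^ (r - 1) := by rw [← pow_succ', Nat.sub_add_cancel hr]
    rw [this]; ring
  rw [hxx, ht, mul_pow]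
  have h3 : x ^ r - 1 ≠ 0 := sub_ne_zero.2 hxr
  have h4 : u ^ r - x ^ r * u ^ r ≠ 0 := by
    have : u ^ r - x ^ r * u ^ r = u ^ r * (1 - x ^ r) := by ring
    rw [this]
    exact mul_ne_zero hur hx1
  rw [eq_div_iff h4]
  field_simp
  ring

end Pool.Agent.H407.PCF
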